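import Mathlib
import Pool.Agent.Q110.StrongCol.Comb
import Pool.Agent.Q110.StrongCol.Top

set_option autoImplicit false

namespace Pool.Agent.Results.MP_3bb84f_co.QuadraticBound

open Finset Pool.Agent.Q110.StrongCol

/-- If some edge has at most `c - 1` vertices, the colouring is easy. -/
theorem small (c : ℕ) (hc : 3 ≤ c) (n : ℕ) (H : Finset (Finset (Fin n)))
    (hH : ∀ e ∈ H, ∀ f ∈ H, e ≠ f → c - 1 ≤ (e ∩ f).card) (e0 : Finset (Fin n))
    (he0 : e0 ∈ H) (hs : e0.card < c) :
    ∃ col : Fin n → Fin (c * (c - 1)), ∀ e ∈ H, min e.card c ≤ (e.image col).card := by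
  classical
  have hN : c ≤ c * (c - 1) := Nat.le_mul_of_pos_right c (by omega)
  let g : Fin n → ℕ := fun v => if h : v ∈ e0 then (e0.equivFin ⟨v, h⟩).val else c - 1
  have hg : ∀ v, g v < c * (c - 1) := by
    intro v
    by_cases h : v ∈ e0
    · have : g v = (e0.equivFin ⟨v, h⟩).val := by simp only [g, dif_pos h]
      have h2 := (e0.equivFin ⟨v, h⟩).2
      omega
    · have : g v = c - 1 := by simp only [g, dif_neg h]
      omega
  have hinj : Set.InjOn g e0 := by
    intro v hv w hw hvw
    have hv' : v ∈ e0 := hv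
    have hw' : w ∈ e0 := hw
    simp only [g, dif_pos hv', dif_pos hw'] at hvw
    have := e0.equivFin.injective (Fin.ext hvw)
    exact congrArg Subtype.val this
  have hcol : Set.InjOn (fun v => (⟨g v, hg v⟩ : Fin (c * (c - 1)))) e0 := by
    intro v hv w hw hvw
    exact hinj hv hw (congrArg Fin.val hvw)
  refine ⟨fun v => ⟨g v, hg v⟩, ?_⟩
  intro e he
  by_cases hee : e = e0
  · subst hee
    rw [Finset.card_image_of_injOn hcol]
    exact min_le_left _ _
  · have h1 := hH e he e0 he0 hee
    have h2 : e ∩ e0 = e0 := by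
      apply Finset.eq_of_subset_of_card_le Finset.inter_subset_right
      omega
    have h3 : e0 ⊆ e := by rw [← h2]; exact Finset.inter_subset_left
    have h4 : ∃ v ∈ e, v ∉ e0 := by
      by_contra hcon
      push Not at hcon
      exact hee (Finset.Subset.antisymm hcon h3)
    obtain ⟨v, hv, hv0⟩ := h4
    refine le_trans (min_le_right _ _) ?_
    have h5 : (insert v e0).image (fun v => (⟨g v, hg v⟩ : Fin (c * (c - 1)))) ⊆
        e.image (fun v => (⟨g v, hg v⟩ : Fin (c * (c - 1)))) := by
      apply Finset.image_subset_image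
      intro w hw
      rcases Finset.mem_insert.mp hw with h | h
      · rw [h]; exact hv
      · exact h3 h
    refine le_trans ?_ (Finset.card_le_card h5)
    rw [Finset.image_insert, Finset.card_insert_of_notMem, Finset.card_image_of_injOn hcol]
    · rw [h2] at h1; omega
    · intro hmem
      obtain ⟨w, hw, hwv⟩ := Finset.mem_image.mp hmem
      have h6 : g w = g v := congrArg Fin.val hwv
      have h7 : g v = c - 1 := by simp only [g, dif_neg hv0]
      have h8 : g w = (e0.equivFin ⟨w, hw⟩).val := by simp only [g, dif_pos hw]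
      have h9 := (e0.equivFin ⟨w, hw⟩).2
      rw [h2] at h1
      omega

theorem main (c : ℕ) (hc : 3 ≤ c) (n : ℕ) (H : Finset (Finset (Fin n)))
    (hH : ∀ e ∈ H, ∀ f ∈ H, e ≠ f → c - 1 ≤ (e ∩ f).card) :
    ∃ col : Fin n → Fin (c * (c - 1)), ∀ e ∈ H, min e.card c ≤ (e.image col).card := by
  classical
  by_cases hsm : ∃ e0 ∈ H, e0.card < c
  · obtain ⟨e0, he0, hs⟩ := hsm
    exact small c hc n H hH e0 he0 hs
  push Not at hsm
  by_contra hcon
  push Not at hcon
  -- the number of vertices is positive
  obtain ⟨m, hm⟩ : ∃ m, c * (c - 1) = m + 1 := by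
    have : 0 < c * (c - 1) := Nat.mul_pos (by omega) (by omega)
    exact ⟨c * (c - 1) - 1, by omega⟩
  rw [hm] at hcon
  have hn : n ≠ 0 := by
    intro hn
    subst hn
    obtain ⟨e, he, hlt⟩ := hcon (fun _ => 0)
    have h1 := hsm e he
    have h2 : e = ∅ := Finset.eq_empty_of_isEmpty e
    rw [h2, Finset.card_empty] at h1
    omega
  have : NeZero n := ⟨hn⟩
  choose E hE hlt using hcon
  have hEc : ∀ col, c ≤ (E col).card := fun col => hsm _ (hE col)
  have hIc : ∀ col, ((E col).image col).card ≤ c - 1 := by
    intro col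
    have h1 := hlt col
    rw [min_eq_right (hEc col)] at h1
    omega
  have hEne : ∀ col, (E col).Nonempty := by
    intro col
    apply Finset.card_pos.mp
    have := hEc col
    omega
  obtain ⟨x, γ, hγ, hx, hphi⟩ := exists_balanced (n := n) m (fun col => (E col).image col)
    (by
      intro col i hi
      obtain ⟨v, _, hv⟩ := Finset.mem_image.mp hi
      exact ⟨v, hv⟩)
    (fun col => (hEne col).image col)
  let T : Finset (Fin n → Fin (m + 1)) := univ.filter (fun col => 0 < ms col x)
  have hT : ∀ col, col ∈ T ↔ 0 < ms col x := by intro col; simp [T]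
  have hTne : T.Nonempty := by
    obtain ⟨col, hcol⟩ := exists_ms_pos (n := n) x hx
    exact ⟨col, (hT col).mpr hcol⟩
  have hpair : ∀ a ∈ T, ∀ b ∈ T, lo a x ≤ lo b x → Pair (c - 1) a b (E a) (E b) := by
    intro a ha b hb hab
    have ha' := (hT a).mp ha
    have hb' := (hT b).mp hb
    refine ⟨?_, ?_, hIc a, hIc b, ?_⟩
    · intro v
      exact mono_of x a b ha' hb' v v (by linarith)
    · intro v w hvw
      apply mono_of x b a hb' ha' v w
      have h1 : (v.val : ℝ) + 1 ≤ w.val := by exact_mod_cast hvw
      have h2 := (lo_spec b x hb').2.1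
      have h3 := (lo_spec a x ha').1
      linarith
    · by_cases hee : E a = E b
      · rw [hee, Finset.inter_self]
        have := hEc b
        omega
      · exact hH _ (hE a) _ (hE b) hee
  obtain ⟨a, ha, hmin⟩ := T.exists_min_image (fun col => lo col x) hTne
  have hcount := count (N := m + 1) (t := c - 1) (by omega) T (fun col => ms col x)
    (fun col => (E col).image col) γ hγ (fun i hi => (hT i).mp hi) (fun i _ => hIc i)
    (by
      intro j
      rw [← hphi j]
      unfold phi
      symm
      rw [← Finset.sum_subset (Finset.subset_univ T)]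
      intro col _ hcol
      have h1 : ¬ 0 < ms col x := fun h => hcol ((hT col).mpr h)
      have h2 : ms col x = 0 := le_antisymm (not_lt.mp h1) (ms_nonneg col x)
      simp [h2])
    a ha ((hEne a).image a)
    (by
      intro hex
      obtain ⟨i0, hi0, hdi0⟩ := hex
      obtain ⟨J, hJ⟩ := common (t := c - 1)
        (T.filter (fun col => Disjoint ((E a).image a) ((E col).image col)))
        (fun col => lo col x) (fun col => col) E a (E a)
        (by intro i _; have := hEc i; omega)
        (by intro i hi; rw [Finset.mem_filter] at hi; exact hpair a ha i hi.1 (hmin i hi.1))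
        (by intro i hi; rw [Finset.mem_filter] at hi; exact hi.2)
        (by
          intro i hi j hj hij
          rw [Finset.mem_filter] at hi hj
          exact hpair i hi.1 j hj.1 hij)
        ⟨i0, Finset.mem_filter.mpr ⟨hi0, hdi0⟩⟩
      exact ⟨J, fun i hi hd => hJ i (Finset.mem_filter.mpr ⟨hi, hd⟩)⟩)
  have h1 : c - 1 + 1 = c := by omega
  rw [h1, mul_comm, hm] at hcount
  exact lt_irrefl _ hcount

/-- For every `c ≥ 3`, every finite hypergraph whose distinct edges pairwise share at least `c - 1`
vertices has a colouring with `c (c - 1)` colours in which every edge `e` sees at least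
`min |e| c` colours. -/
theorem result : ∀ c : ℕ, 3 ≤ c → ∀ n : ℕ, ∀ H : Finset (Finset (Fin n)),
    (∀ e ∈ H, ∀ f ∈ H, e ≠ f → c - 1 ≤ (e ∩ f).card) →
    ∃ col : Fin n → Fin (c * (c - 1)), ∀ e ∈ H, min e.card c ≤ (e.image col).card :=
  fun c hc n H hH => main c hc n H hH

end Pool.Agent.Results.MP_3bb84f_co.QuadraticBound
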